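import Mathlib
import Pool.Agent.S06366

/-!
The map `ff` vanishes exactly on the axis, and it is Lipschitz on `Om`.
-/

set_option autoImplicit false

noncomputable section

open Filter Topology MeasureTheory Set
open scoped NNReal ENNReal

namespace Pool.Agent.Helper67.OWN

open Pool.Agent.Helper13.FD

/-! ### the zero set -/

lemma lam_zero' : lam 0 = 0 := by
  unfold lam; simp

lemma eq_zero_of_lam {p : E} (h : lam p = 0) : p = 0 := by
  unfold lam at h
  have h2 := abs_nonneg (p 2)
  have h3 : 0 ≤ max |p 0| |p 1| := (abs_nonneg (p 0)).trans (le_max_left _ _)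
  have h4 := le_max_left |p 0| |p 1|
  have h5 := le_max_right |p 0| |p 1|
  have a0 := abs_nonneg (p 0)
  have a1 := abs_nonneg (p 1)
  apply ext3
  · exact abs_eq_zero.mp (by linarith)
  · exact abs_eq_zero.mp (by linarith)
  · exact abs_eq_zero.mp (by linarith)

lemma Dm_eq_zero {p : E} (h : Dm p = 0) : p = 0 :=
  eq_zero_of_lam (by rw [← lam_Dm, h, lam_zero'])

lemma two_pos_aux (t : ℝ) : 0 < (1 - t) ^ 2 + t ^ 2 := by nlinarith [sq_nonneg (1 - 2 * t)]

lemma Am_eq_zero {t : ℝ} {p : E} (h : Am t p = 0) : p = 0 := by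
  have h0 : (1 - t) * p 0 + t * p 1 = 0 := congrArg (fun q : E => q 0) h
  have h1 : -t * p 0 + (1 - t) * p 1 = 0 := congrArg (fun q : E => q 1) h
  have h2 : p 2 = 0 := congrArg (fun q : E => q 2) h
  have hd := two_pos_aux t
  have e0 : ((1 - t) ^ 2 + t ^ 2) * p 0 = 0 := by linear_combination (1 - t) * h0 - t * h1
  have e1 : ((1 - t) ^ 2 + t ^ 2) * p 1 = 0 := by linear_combination t * h0 + (1 - t) * h1
  apply ext3
  · exact (mul_eq_zero.mp e0).resolve_left hd.ne'
  · exact (mul_eq_zero.mp e1).resolve_left hd.ne'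
  · exact h2

lemma Bm_eq_zero {t : ℝ} {p : E} (h : Bm t p = 0) : p = 0 := by
  have h0 : (1 - t) * p 0 - t * p 1 = 0 := congrArg (fun q : E => q 0) h
  have h1 : t * p 0 + (1 - t) * p 1 = 0 := congrArg (fun q : E => q 1) h
  have h2 : p 2 = 0 := congrArg (fun q : E => q 2) h
  have hd := two_pos_aux t
  have e0 : ((1 - t) ^ 2 + t ^ 2) * p 0 = 0 := by linear_combination (1 - t) * h0 + t * h1
  have e1 : ((1 - t) ^ 2 + t ^ 2) * p 1 = 0 := by linear_combination -t * h0 + (1 - t) * h1
  apply ext3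
  · exact (mul_eq_zero.mp e0).resolve_left hd.ne'
  · exact (mul_eq_zero.mp e1).resolve_left hd.ne'
  · exact h2

lemma wm_eq_zero {t : ℝ} {p : E} (h : wm t p = 0) : p = 0 :=
  Am_eq_zero (Dm_eq_zero (Bm_eq_zero (Dm_eq_zero h)))

lemma Lm_iter_eq_zero {j : ℕ} {p : E} (h : Lm^[j] p = 0) : p = 0 := by
  induction j with
  | zero => exact h
  | succ j ih =>
    rw [Function.iterate_succ_apply'] at h
    exact ih (wm_eq_zero h)

lemma ff_ne_zero {x : E} (hx : x ∈ U0) : ff x ≠ 0 := by
  obtain ⟨j, h1, h2⟩ := exists_level hx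
  rw [ff_eq' hx.1 h1 h2]
  intro h
  rcases smul_eq_zero.mp h with h | h
  · exact (Real.exp_pos _).ne' h
  · have h3 := wm_eq_zero (Lm_iter_eq_zero h)
    have h4 := lam_base (abs_aa_add_abs_bb hx.1) (YY j x)
    rw [h3, lam_zero'] at h4
    exact zero_ne_one h4

lemma ff_eq_zero_iff {x : E} (hx : x ∈ Om) : ff x = 0 ↔ x 0 = 0 ∧ x 1 = 0 := by
  constructor
  · intro h
    rcases (rr_nonneg x).eq_or_lt with h0 | h0
    · unfold rr at h0
      have a0 := abs_nonneg (x 0)
      have a1 := abs_nonneg (x 1)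
      exact ⟨abs_eq_zero.mp (by linarith), abs_eq_zero.mp (by linarith)⟩
    · exact absurd h (ff_ne_zero ⟨h0, hx⟩)
  · rintro ⟨h0, h1⟩
    have : rr x = 0 := by unfold rr; rw [h0, h1]; simp
    unfold ff
    rw [if_pos this]

/-! ### Lipschitz continuity -/

/-- the axis direction and a vector span a proper subspace -/
lemma ae_notMem_plane (v : E) : ∀ᵐ z : E ∂volume,
    z ∉ (Submodule.span ℝ {mk 0 0 1, v} : Submodule ℝ E) := by
  have h := MeasureTheory.Measure.addHaar_submodule (volume : Measure E)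
    (Submodule.span ℝ {mk 0 0 1, v}) (by
      intro hcon
      have h1 : Module.finrank ℝ (Submodule.span ℝ ({mk 0 0 1, v} : Set E)) ≤ 2 := by
        classical
        have h := finrank_span_finset_le_card (R := ℝ) ({mk 0 0 1, v} : Finset E)
        rw [Finset.coe_insert, Finset.coe_singleton] at h
        exact h.trans Finset.card_le_two
      rw [hcon, finrank_top, finrank_euclideanSpace, Fintype.card_fin] at h1
      omega)
  rw [ae_iff]
  refine measure_mono_null ?_ h
  intro x hx
  simpa using hx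

lemma good_line (v : E) : ∀ᵐ z : E ∂volume, ∀ᵐ s : ℝ ∂volume,
    z + s • v ∈ U0 → Good (z + s • v) := by
  obtain ⟨t, ht1, ht2, ht3⟩ := exists_measurable_superset_of_null (ae_iff.mp good_ae)
  have h2 : ∀ᵐ y : E ∂volume, y ∈ tᶜ := by
    rw [ae_iff]
    refine measure_mono_null ?_ ht3
    intro x hx
    simpa using hx
  have h3 := (ae_ae_add_linearMap_mem_iff (LinearMap.toSpanSingleton ℝ E v) volume volume
    ht2.compl).2 h2
  filter_upwards [h3] with z hz
  filter_upwards [hz] with s hs
  by_contra hcon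
  exact hs (ht1 hcon)

lemma seg_bound {z v : E} (hz : z ∈ Om) (hzv : z + v ∈ Om)
    (h1 : z ∉ (Submodule.span ℝ {mk 0 0 1, v} : Submodule ℝ E))
    (h2 : ∀ᵐ s : ℝ ∂volume, z + s • v ∈ U0 → Good (z + s • v)) (i : Fin 3) :
    |ff (z + v) i - ff z i| ≤ 17000000 * ‖v‖ := by
  have hseg : ∀ s ∈ Icc (0 : ℝ) 1, z + s • v ∈ U0 := by
    intro s hs
    have hOm : z + s • v ∈ Om := by
      have := Pool.Agent.S06366.convex_Om hz hzv (sub_nonneg.2 hs.2) hs.1
        (by ring : 1 - s + s = 1)
      have e : (1 - s) • z + s • (z + v) = z + s • v := by module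
      rwa [e] at this
    refine ⟨lt_of_le_of_ne (rr_nonneg _) ?_, hOm⟩
    intro h0
    apply h1
    unfold rr at h0
    have a0 := abs_nonneg ((z + s • v) 0)
    have a1 := abs_nonneg ((z + s • v) 1)
    have c0 : (z + s • v) 0 = 0 := abs_eq_zero.mp (by linarith)
    have c1 : (z + s • v) 1 = 0 := abs_eq_zero.mp (by linarith)
    have e : z = ((z + s • v) 2) • mk 0 0 1 - s • v := by
      have e1 : z + s • v = ((z + s • v) 2) • mk 0 0 1 := by
        apply ext3
        · rw [c0]; simp
        · rw [c1]; simp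
        · simp
      rw [← e1]; abel
    rw [e]
    exact Submodule.sub_mem _ (Submodule.smul_mem _ _ (Submodule.subset_span (by simp)))
      (Submodule.smul_mem _ _ (Submodule.subset_span (by simp)))
  set h : ℝ → ℝ := fun s => ff (z + s • v) i with hh
  have hL : LocallyLipschitzOn (Icc (0 : ℝ) 1) h := by
    intro s hs
    have l1 : LLip (fun p : E => ff p i) (z + s • v) :=
      LLip.comp (f := ff) (g := fun p : E => p i) (x := z + s • v) (lLip_coord i _)
        (lLip_ff (hseg s hs))
    have l2 : LLip (fun s : ℝ => z + s • v) s :=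
      (by fun_prop : ContDiffAt ℝ 1 (fun s : ℝ => z + s • v) s).lLip
    obtain ⟨K, u, hu, hK⟩ := LLip.comp (f := fun s : ℝ => z + s • v)
      (g := fun p : E => ff p i) (x := s) l1 l2
    exact ⟨K, u, mem_nhdsWithin_of_mem_nhds hu, hK⟩
  obtain ⟨K, hK⟩ := hL.exists_lipschitzOnWith_of_compact isCompact_Icc
  have hAC : AbsolutelyContinuousOnInterval h 0 1 :=
    LipschitzOnWith.absolutelyContinuousOnInterval (by rwa [uIcc_of_le zero_le_one])
  have hI := hAC.integral_deriv_eq_sub
  have e : h 1 - h 0 = ff (z + v) i - ff z i := by simp [hh]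
  rw [← e, ← hI]
  have hb := intervalIntegral.norm_integral_le_of_norm_le_const_ae (C := 17000000 * ‖v‖)
    (f := deriv h) (a := 0) (b := 1) (by
      filter_upwards [h2] with s hs hmem
      rw [uIoc_of_le zero_le_one] at hmem
      have hg := hs (hseg s ⟨hmem.1.le, hmem.2⟩)
      have d1 : HasDerivAt (fun s : ℝ => z + s • v) v s := by
        have := ((hasDerivAt_id s).smul_const v).const_add z
        simpa using this
      have d2 : HasDerivAt (fun s : ℝ => ff (z + s • v)) (fderiv ℝ ff (z + s • v) v) s :=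
        HasFDerivAt.comp_hasDerivAt (l := ff) (f := fun s : ℝ => z + s • v) s
          hg.diff.hasFDerivAt d1
      have d3 : HasDerivAt h ((pr i) (fderiv ℝ ff (z + s • v) v)) s :=
        (pr i).hasFDerivAt.comp_hasDerivAt s d2
      rw [d3.deriv, pr_apply, Real.norm_eq_abs]
      refine (abs_le_norm _ i).trans ?_
      exact ((fderiv ℝ ff (z + s • v)).le_opNorm v).trans
        (mul_le_mul_of_nonneg_right hg.norm_le' (norm_nonneg _)))
  simpa using hb

lemma ff_coord_lip (i : Fin 3) {x y : E} (hx : x ∈ Om) (hy : y ∈ Om) :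
    |ff y i - ff x i| ≤ 17000000 * ‖y - x‖ := by
  set v := y - x with hv
  have hD : Dense {z : E | z ∉ (Submodule.span ℝ {mk 0 0 1, v} : Submodule ℝ E) ∧
      ∀ᵐ s : ℝ ∂volume, z + s • v ∈ U0 → Good (z + s • v)} :=
    Measure.dense_of_ae (μ := (volume : Measure E)) ((ae_notMem_plane v).and (good_line v))
  set D := {z : E | z ∉ (Submodule.span ℝ {mk 0 0 1, v} : Submodule ℝ E) ∧
      ∀ᵐ s : ℝ ∂volume, z + s • v ∈ U0 → Good (z + s • v)} with hDdef
  have hxy : x + v = y := by rw [hv]; abel
  have hne : (𝓝[D] x).NeBot := mem_closure_iff_nhdsWithin_neBot.mp (hD x)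
  have cx : ContinuousAt ff x := continuousOn_ff.continuousAt (isOpen_Om.mem_nhds hx)
  have cy : ContinuousAt (fun z => ff (z + v)) x := by
    have h1 : ContinuousAt ff (x + v) := by
      rw [hxy]; exact continuousOn_ff.continuousAt (isOpen_Om.mem_nhds hy)
    exact ContinuousAt.comp (f := fun z => z + v) (g := ff) h1
      (continuous_id.add continuous_const).continuousAt
  have cc : ContinuousAt (fun z => |ff (z + v) i - ff z i|) x := by
    have e1 : ContinuousAt (fun z => (pr i) (ff (z + v))) x :=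
      (pr i).continuous.continuousAt.comp cy
    have e2 : ContinuousAt (fun z => (pr i) (ff z)) x :=
      (pr i).continuous.continuousAt.comp cx
    exact (e1.sub e2).abs
  have ct : Tendsto (fun z => |ff (z + v) i - ff z i|) (𝓝[D] x) (𝓝 |ff (x + v) i - ff x i|) :=
    cc.tendsto.mono_left nhdsWithin_le_nhds
  rw [← hxy]
  refine le_of_tendsto ct ?_
  have hyn : ∀ᶠ z in 𝓝 x, z + v ∈ Om := by
    have c : ContinuousAt (fun z : E => z + v) x :=
      (continuous_id.add continuous_const).continuousAt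
    exact c.eventually (isOpen_Om.mem_nhds (by show x + v ∈ Om; rw [hxy]; exact hy))
  filter_upwards [self_mem_nhdsWithin, mem_nhdsWithin_of_mem_nhds (isOpen_Om.mem_nhds hx),
    mem_nhdsWithin_of_mem_nhds hyn] with z hz h1 h2
  exact seg_bound h1 h2 hz.1 hz.2 i

lemma lipschitzOn_ff : LipschitzOnWith 51000000 ff Om := by
  refine LipschitzOnWith.of_dist_le_mul fun x hx y hy => ?_
  rw [dist_eq_norm, dist_eq_norm]
  have h := norm_le_sum (ff x - ff y)
  have h0 := ff_coord_lip 0 hy hx
  have h1 := ff_coord_lip 1 hy hx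
  have h2 := ff_coord_lip 2 hy hx
  simp only [PiLp.sub_apply] at h
  have e : ((51000000 : ℝ≥0) : ℝ) = 51000000 := by norm_num
  rw [e]
  linarith

end Pool.Agent.Helper67.OWN
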