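import Mathlib
import Pool.Agent.Helper67.OWN.FDZero

/-!
Integrability of `K ^ 2 * log (e + K) * (log (e + log (e + K))) ^ b` for every `b < 1`.
-/

set_option autoImplicit false

noncomputable section

open Filter Topology MeasureTheory Set
open scoped NNReal ENNReal

namespace Pool.Agent.Helper67.OWN

open Pool.Agent.Helper13.FD

lemma summable_log_rpow {c : ℝ} (hc : 1 < c) :
    Summable fun n : ℕ => 1 / (((n : ℝ) + 3) * Real.log ((n : ℝ) + 3) ^ c) := by
  have hl : ∀ n : ℕ, 0 < Real.log ((n : ℝ) + 3) := fun n =>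
    Real.log_pos (by have := Nat.cast_nonneg (α := ℝ) n; linarith)
  have h0 : ∀ n : ℕ, 0 ≤ 1 / (((n : ℝ) + 3) * Real.log ((n : ℝ) + 3) ^ c) := fun n => by
    have := Real.rpow_pos_of_pos (hl n) c
    positivity
  rw [← summable_condensed_iff_of_nonneg h0]
  · rw [← summable_nat_add_iff 1]
    have h1 := (summable_nat_add_iff 1).mpr (Real.summable_one_div_nat_rpow.mpr hc)
    refine Summable.of_nonneg_of_le (fun k => by
      have := h0 (2 ^ (k + 1)); positivity) (fun k => ?_) (h1.mul_left ((Real.log 2 ^ c)⁻¹))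
    have l2 := Real.log_pos (by norm_num : (1 : ℝ) < 2)
    have p2 : (0 : ℝ) < 2 ^ (k + 1) := by positivity
    have e1 : ((k : ℝ) + 1) * Real.log 2 ≤ Real.log ((2 : ℝ) ^ (k + 1) + 3) := by
      have h := Real.log_le_log p2 (by linarith : (2 : ℝ) ^ (k + 1) ≤ 2 ^ (k + 1) + 3)
      rw [Real.log_pow] at h
      push_cast at h
      exact h
    have k1 : (0 : ℝ) < (k : ℝ) + 1 := by positivity
    have e2 : ((k : ℝ) + 1) ^ c * Real.log 2 ^ c ≤ Real.log ((2 : ℝ) ^ (k + 1) + 3) ^ c := by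
      rw [← Real.mul_rpow k1.le l2.le]
      exact Real.rpow_le_rpow (by positivity) e1 (by linarith)
    have q1 := Real.rpow_pos_of_pos k1 c
    have q2 := Real.rpow_pos_of_pos l2 c
    push_cast
    calc (2 : ℝ) ^ (k + 1) * (1 / ((2 ^ (k + 1) + 3) * Real.log (2 ^ (k + 1) + 3) ^ c))
        ≤ 2 ^ (k + 1) * (1 / (2 ^ (k + 1) * (((k : ℝ) + 1) ^ c * Real.log 2 ^ c))) := by
          apply mul_le_mul_of_nonneg_left _ p2.le
          apply one_div_le_one_div_of_le (by positivity)
          exact mul_le_mul (by linarith) e2 (by positivity) (by positivity)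
      _ = (Real.log 2 ^ c)⁻¹ * (1 / ((k : ℝ) + 1) ^ c) := by field_simp
  · intro m n hm hmn
    have hmn' : (m : ℝ) ≤ n := by exact_mod_cast hmn
    have p1 := Real.rpow_pos_of_pos (hl m) c
    have p2 : Real.log ((m : ℝ) + 3) ^ c ≤ Real.log ((n : ℝ) + 3) ^ c :=
      Real.rpow_le_rpow (hl m).le (Real.log_le_log (by positivity) (by linarith)) (by linarith)
    apply one_div_le_one_div_of_le (by positivity)
    exact mul_le_mul (by linarith) p2 p1.le (by positivity)

/-- dominating function -/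
def phc (c : ℝ) (x : E) : ℝ := 1 / (rr x ^ 2 * tt x * LL x ^ c)

lemma measurable_phc (c : ℝ) : Measurable (phc c) := by
  unfold phc
  exact measurable_const.div (((measurable_rr.pow_const 2).mul measurable_tt).mul
    (measurable_LL.pow_const c))

lemma phc_nonneg (c : ℝ) {x : E} (hx : x ∈ U0) : 0 ≤ phc c x := by
  have hr := hx.1
  have ht := tt_pos hx
  have hL := Real.rpow_pos_of_pos (LL_pos hx) c
  unfold phc; positivity

lemma lintegral_sh_c {c : ℝ} (hc : 1 < c) (n : ℕ) : ∫⁻ x in sh n, ENNReal.ofReal (phc c x) ≤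
    ENNReal.ofReal (4 * Real.exp 2 * (1 / (((n : ℝ) + 3) * Real.log ((n : ℝ) + 3) ^ c))) := by
  have hn := Nat.cast_nonneg (α := ℝ) n
  have hlog : 0 < Real.log ((n : ℝ) + 3) := Real.log_pos (by linarith)
  have hlogc := Real.rpow_pos_of_pos hlog c
  set d := Real.exp (2 * (n + 4)) * (1 / (((n : ℝ) + 3) * Real.log ((n : ℝ) + 3) ^ c)) with hd
  have hd0 : 0 ≤ d := by positivity
  have h1 : ∀ x ∈ sh n, ENNReal.ofReal (phc c x) ≤ ENNReal.ofReal d := by
    rintro x ⟨hx, h3, h4⟩
    apply ENNReal.ofReal_le_ofReal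
    have hr := hx.1
    have ht := tt_pos hx
    have hL := LL_pos hx
    have hLc := Real.rpow_pos_of_pos hL c
    have e1 : phc c x = Real.exp (2 * tt x) * (1 / (tt x * LL x ^ c)) := by
      have : Real.exp (2 * tt x) = (1 / rr x) ^ 2 := by
        rw [← exp_tt hx, ← Real.exp_nat_mul]; norm_num
      rw [this]; unfold phc; field_simp
    rw [e1, hd]
    apply mul_le_mul
    · apply Real.exp_le_exp.mpr; linarith
    · apply one_div_le_one_div_of_le (by positivity)
      have hl : Real.log ((n : ℝ) + 3) ≤ LL x := Real.log_le_log (by linarith) h3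
      have hl2 : Real.log ((n : ℝ) + 3) ^ c ≤ LL x ^ c :=
        Real.rpow_le_rpow hlog.le hl (by linarith)
      exact mul_le_mul h3 hl2 (by positivity) ht.le
    · positivity
    · positivity
  have h2 : sh n ⊆ bx (Real.exp (-((n : ℝ) + 3))) := by
    rintro x ⟨hx, h3, h4⟩
    have hr : rr x ≤ Real.exp (-((n : ℝ) + 3)) := by
      rw [← exp_neg_tt hx.1]; apply Real.exp_le_exp.mpr; linarith
    have h0 : |x 0| ≤ rr x := by unfold rr; have := abs_nonneg (x 1); linarith
    have h1 : |x 1| ≤ rr x := by unfold rr; have := abs_nonneg (x 0); linarith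
    exact ⟨h0.trans hr, h1.trans hr, hx.2.2.1, hx.2.2.2⟩
  have hms : MeasurableSet (sh n) := by
    have : sh n = U0 ∩ ({x | (n : ℝ) + 3 ≤ tt x} ∩ {x | tt x < (n : ℝ) + 4}) := by
      ext x; rfl
    rw [this]
    exact isOpen_U0.measurableSet.inter ((measurableSet_le measurable_const measurable_tt).inter
      (measurableSet_lt measurable_tt measurable_const))
  calc ∫⁻ x in sh n, ENNReal.ofReal (phc c x) ≤ ∫⁻ x in sh n, ENNReal.ofReal d :=
        setLIntegral_mono' hms h1
    _ = ENNReal.ofReal d * volume (sh n) := by rw [setLIntegral_const]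
    _ ≤ ENNReal.ofReal d * volume (bx (Real.exp (-((n : ℝ) + 3)))) := by
        gcongr
    _ = ENNReal.ofReal d * ENNReal.ofReal (4 * Real.exp (-((n : ℝ) + 3)) ^ 2) := by
        rw [volume_bx _ (Real.exp_pos _).le]
    _ = ENNReal.ofReal (d * (4 * Real.exp (-((n : ℝ) + 3)) ^ 2)) := by
        rw [ENNReal.ofReal_mul hd0]
    _ = _ := by
        congr 1
        rw [hd, ← Real.exp_nat_mul]
        have : Real.exp 2 = Real.exp (2 * ((n : ℝ) + 4)) * Real.exp ((2 : ℕ) * (-((n : ℝ) + 3))) := by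
          rw [← Real.exp_add]; congr 1; push_cast; ring
        rw [this]; ring

lemma lintegral_U0_c {c : ℝ} (hc : 1 < c) : ∫⁻ x in U0, ENNReal.ofReal (phc c x) < ∞ := by
  calc ∫⁻ x in U0, ENNReal.ofReal (phc c x) ≤ ∫⁻ x in ⋃ n, sh n, ENNReal.ofReal (phc c x) :=
        lintegral_mono_set U0_subset
    _ ≤ ∑' n, ∫⁻ x in sh n, ENNReal.ofReal (phc c x) := lintegral_iUnion_le _ _
    _ ≤ ∑' n : ℕ, ENNReal.ofReal (4 * Real.exp 2 *
          (1 / (((n : ℝ) + 3) * Real.log ((n : ℝ) + 3) ^ c))) :=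
        ENNReal.tsum_le_tsum (lintegral_sh_c hc)
    _ < ∞ := ((summable_log_rpow hc).mul_left _).tsum_ofReal_lt_top

lemma Om_ae_eq_U0 : Om =ᵐ[volume] U0 := by
  filter_upwards [ae_coord_ne 0] with x h0
  have : x ∈ Om ↔ x ∈ U0 := by
    constructor
    · intro hx
      refine ⟨?_, hx⟩
      unfold rr
      have := abs_pos.mpr h0
      have := abs_nonneg (x 1)
      linarith
    · intro hx; exact hx.2
  exact propext this

lemma integrable_phc {c : ℝ} (hc : 1 < c) : Integrable (phc c) (volume.restrict Om) := by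
  refine ⟨(measurable_phc c).aestronglyMeasurable, ?_⟩
  have e1 : ∫⁻ x in Om, ‖phc c x‖ₑ = ∫⁻ x in Om, ENNReal.ofReal (phc c x) := by
    apply lintegral_congr_ae
    filter_upwards [ae_mem_U0] with x hx
    rw [Real.enorm_eq_ofReal (phc_nonneg c hx)]
  show ∫⁻ x in Om, ‖phc c x‖ₑ < ∞
  rw [e1, setLIntegral_congr Om_ae_eq_U0]
  exact lintegral_U0_c hc

/-- the double logarithm -/
lemma one_le_loglog {K : ℝ} (hK : 0 ≤ K) :
    1 ≤ Real.log (Real.exp 1 + K) ∧ 1 ≤ Real.log (Real.exp 1 + Real.log (Real.exp 1 + K)) := by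
  have he := Real.exp_pos (1 : ℝ)
  have h1 : 1 ≤ Real.log (Real.exp 1 + K) := by
    have := Real.log_le_log he (by linarith : Real.exp 1 ≤ Real.exp 1 + K)
    rwa [Real.log_exp] at this
  refine ⟨h1, ?_⟩
  have := Real.log_le_log he (by linarith : Real.exp 1 ≤ Real.exp 1 + Real.log (Real.exp 1 + K))
  rwa [Real.log_exp] at this

lemma Kf_bound_c {x : E} (hx : Good x) {b g : ℝ} (hbg : b ≤ g) (hg0 : 0 ≤ g) (hg1 : g < 1) :
    Kf x ^ 2 * Real.log (Real.exp 1 + Kf x) *
      Real.log (Real.exp 1 + Real.log (Real.exp 1 + Kf x)) ^ b ≤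
        4 * 10 ^ 46 * phc (2 - g) x := by
  obtain ⟨hJ, hK⟩ := hx.K_le
  obtain ⟨hK0, -⟩ := hx.Kf_bound
  have e : Kf x = ‖fderiv ℝ ff x‖ ^ 3 / dt (fderiv ℝ ff x) := by
    have hJ' : 0 < Jf x := hJ
    unfold Kf; rw [if_pos hJ']; rfl
  rw [← e] at hK
  have hm := hx.mem
  have ht := tt_pos hm
  have hr := hm.1
  have hL := LL_pos hm
  have hL1 := LL_gt_one hm
  have hgt := tt_gt hm
  have h0 : t0 = 10 ^ 12 := rfl
  rw [h0] at hgt
  have h1 : Kf x ≤ 10 ^ 23 * (1 / rr x) := by
    refine hK.trans ?_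
    rw [← mul_one_div]
    apply mul_le_mul_of_nonneg_left _ (by norm_num)
    apply one_div_le_one_div_of_le hr
    have : 1 ≤ tt x * LL x := by nlinarith
    calc rr x = rr x * 1 := by ring
      _ ≤ rr x * (tt x * LL x) := mul_le_mul_of_nonneg_left this hr.le
      _ = _ := by ring
  have hrr1 : 1 ≤ 1 / rr x := by have := one_le_inv_rr hm; linarith
  have he : Real.exp 1 < 3 := by have := Real.exp_one_lt_d9; linarith
  have he0 := Real.exp_pos (1 : ℝ)
  have h2 : Real.exp 1 + Kf x ≤ 10 ^ 24 * Real.exp (tt x) := by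
    rw [exp_tt hm]; nlinarith
  have h3 : Real.log (Real.exp 1 + Kf x) ≤ 2 * tt x := by
    have hpos : 0 < Real.exp 1 + Kf x := by linarith
    refine (Real.log_le_log hpos h2).trans ?_
    rw [Real.log_mul (by norm_num) (Real.exp_pos _).ne', Real.log_exp]
    have : Real.log ((10 : ℝ) ^ 24) ≤ 10 ^ 12 := by
      rw [Real.log_pow]
      have := Real.log_le_sub_one_of_pos (by norm_num : (0 : ℝ) < 10)
      push_cast
      linarith
    linarith
  obtain ⟨hl1, hll1⟩ := one_le_loglog hK0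
  have h5 : Real.log (Real.exp 1 + Real.log (Real.exp 1 + Kf x)) ≤ 2 * LL x := by
    have hpos : 0 < Real.exp 1 + Real.log (Real.exp 1 + Kf x) := by linarith
    have h6 : Real.exp 1 + Real.log (Real.exp 1 + Kf x) ≤ tt x ^ 2 := by nlinarith
    refine (Real.log_le_log hpos h6).trans ?_
    rw [Real.log_pow]
    push_cast
    exact le_rfl
  have h7 : Real.log (Real.exp 1 + Real.log (Real.exp 1 + Kf x)) ^ b ≤ 2 * LL x ^ g := by
    calc Real.log (Real.exp 1 + Real.log (Real.exp 1 + Kf x)) ^ b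
        ≤ Real.log (Real.exp 1 + Real.log (Real.exp 1 + Kf x)) ^ g :=
          Real.rpow_le_rpow_of_exponent_le hll1 hbg
      _ ≤ (2 * LL x) ^ g := Real.rpow_le_rpow (by linarith) h5 hg0
      _ = 2 ^ g * LL x ^ g := Real.mul_rpow (by norm_num) hL.le
      _ ≤ 2 * LL x ^ g := by
          apply mul_le_mul_of_nonneg_right _ (Real.rpow_nonneg hL.le g)
          calc (2 : ℝ) ^ g ≤ 2 ^ (1 : ℝ) :=
                Real.rpow_le_rpow_of_exponent_le (by norm_num) hg1.le
            _ = 2 := Real.rpow_one 2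
  have h4 : Kf x ^ 2 ≤ (10 ^ 23 / (rr x * tt x * LL x)) ^ 2 := pow_le_pow_left₀ hK0 hK 2
  have hb0 : 0 ≤ Real.log (Real.exp 1 + Real.log (Real.exp 1 + Kf x)) ^ b :=
    Real.rpow_nonneg (by linarith) b
  calc Kf x ^ 2 * Real.log (Real.exp 1 + Kf x) *
      Real.log (Real.exp 1 + Real.log (Real.exp 1 + Kf x)) ^ b
      ≤ (10 ^ 23 / (rr x * tt x * LL x)) ^ 2 * (2 * tt x) * (2 * LL x ^ g) := by
        apply mul_le_mul (mul_le_mul h4 h3 (by linarith) (by positivity)) h7 hb0 (by positivity)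
    _ = 4 * 10 ^ 46 * phc (2 - g) x := by
        have e2 : LL x ^ (2 - g) = LL x ^ 2 / LL x ^ g := by
          rw [Real.rpow_sub hL, Real.rpow_two]
        have hLg := Real.rpow_pos_of_pos hL g
        unfold phc
        rw [e2]
        field_simp
        ring

lemma integrable_Kf_c {b : ℝ} (hb : b < 1) :
    Integrable (fun x => Kf x ^ 2 * Real.log (Real.exp 1 + Kf x) *
      Real.log (Real.exp 1 + Real.log (Real.exp 1 + Kf x)) ^ b) (volume.restrict Om) := by
  have hg0 : 0 ≤ max b 0 := le_max_right _ _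
  have hg1 : max b 0 < 1 := max_lt hb zero_lt_one
  refine Integrable.mono' ((integrable_phc (c := 2 - max b 0) (by linarith)).const_mul
    (4 * 10 ^ 46)) ?_ ?_
  · have m1 : Measurable (fun x => Real.log (Real.exp 1 + Kf x)) :=
      Real.measurable_log.comp (measurable_const.add measurable_Kf)
    exact (((measurable_Kf.pow_const 2).mul m1).mul
      ((Real.measurable_log.comp (measurable_const.add m1)).pow_const b)).aestronglyMeasurable
  · filter_upwards [good_ae_Om] with x hx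
    obtain ⟨h1, -⟩ := hx.Kf_bound
    obtain ⟨hl1, hll1⟩ := one_le_loglog h1
    rw [Real.norm_eq_abs, abs_of_nonneg]
    · exact Kf_bound_c hx (le_max_left _ _) hg0 hg1
    · exact mul_nonneg (mul_nonneg (by positivity) (by linarith))
        (Real.rpow_nonneg (by linarith) b)

end Pool.Agent.Helper67.OWN
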