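import Mathlib
import Pool.Agent.Helper67.OWN.FDLog

/-!
Rescaled copies of the map `ff` on arbitrary bounded open sets.
-/

set_option autoImplicit false

noncomputable section

open Filter Topology MeasureTheory Set
open scoped NNReal ENNReal

namespace Pool.Agent.Helper67.OWN

open Pool.Agent.Helper13.FD

/-- the similarity -/
def Ac (ρ : ℝ) (p x : E) : E := mk 0 0 (3 / 2) + ρ • (x - p)

lemma Ac_eq (ρ : ℝ) (p x : E) : Ac ρ p x = ρ • x + (mk 0 0 (3 / 2) - ρ • p) := by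
  unfold Ac; module

lemma Ac_0 (ρ : ℝ) (p x : E) : Ac ρ p x 0 = ρ * (x 0 - p 0) := by simp [Ac]
lemma Ac_1 (ρ : ℝ) (p x : E) : Ac ρ p x 1 = ρ * (x 1 - p 1) := by simp [Ac]
lemma Ac_2 (ρ : ℝ) (p x : E) : Ac ρ p x 2 = 3 / 2 + ρ * (x 2 - p 2) := by simp [Ac]

lemma Ac_mem {ρ R : ℝ} (hρ : 0 < ρ) (hR : ρ * R ≤ Real.exp (-t0) / 4) {p x : E}
    (hx : x ∈ Metric.ball p R) : Ac ρ p x ∈ Om := by
  have h1 : ‖x - p‖ < R := by rw [← dist_eq_norm]; exact hx
  have h2 : ρ * ‖x - p‖ < Real.exp (-t0) / 4 := (mul_lt_mul_of_pos_left h1 hρ).trans_le hR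
  have he : Real.exp (-t0) < 1 := by
    rw [Real.exp_lt_one_iff]; have := t0_pos; linarith
  have he0 := Real.exp_pos (-t0)
  have c : ∀ i : Fin 3, |ρ * (x i - p i)| < Real.exp (-t0) / 4 := by
    intro i
    rw [abs_mul, abs_of_pos hρ]
    refine lt_of_le_of_lt ?_ h2
    apply mul_le_mul_of_nonneg_left _ hρ.le
    have := abs_le_norm (x - p) i
    simpa using this
  have c0 := c 0
  have c1 := c 1
  have c2 := abs_lt.mp (c 2)
  refine ⟨?_, ?_, ?_⟩
  · show rr (Ac ρ p x) < _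
    unfold rr
    rw [Ac_0, Ac_1]
    linarith
  · show 1 < Ac ρ p x 2
    rw [Ac_2]; linarith
  · show Ac ρ p x 2 < 2
    rw [Ac_2]; linarith

lemma ae_Ac {ρ : ℝ} (hρ : ρ ≠ 0) (p : E) {P : E → Prop} (h : ∀ᵐ y : E ∂volume, P y) :
    ∀ᵐ x : E ∂volume, P (Ac ρ p x) := by
  rw [ae_iff] at h ⊢
  have e : {x : E | ¬ P (Ac ρ p x)} =
      (ρ • ·) ⁻¹' ((fun y => y + (mk 0 0 (3 / 2) - ρ • p)) ⁻¹' {y : E | ¬ P y}) := by
    ext x
    simp only [Set.mem_ofPred_eq, mem_preimage, Ac_eq]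
  rw [e, Measure.addHaar_preimage_smul volume hρ, measure_preimage_add_right, h, mul_zero]

lemma integrable_Ac {ρ : ℝ} (hρ : ρ ≠ 0) (p : E) {F : E → ℝ}
    (hF : Integrable F (volume.restrict Om)) :
    Integrable (fun x => Om.indicator F (Ac ρ p x)) volume := by
  have h1 : Integrable (Om.indicator F) volume :=
    (integrable_indicator_iff isOpen_Om.measurableSet).mpr hF
  have h2 := h1.comp_add_right (mk 0 0 (3 / 2) - ρ • p)
  have h3 := h2.comp_smul hρ
  simpa only [Ac_eq] using h3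

lemma integrable_Kf_al {a : ℝ} (ha : a ≤ 1) :
    Integrable (fun x => Kf x ^ 2 * Real.log (Real.exp 1 + Kf x) ^ a) (volume.restrict Om) := by
  refine Integrable.mono' integrable_Kf ?_ ?_
  · have m1 : Measurable (fun x => Real.log (Real.exp 1 + Kf x)) :=
      Real.measurable_log.comp (measurable_const.add measurable_Kf)
    exact ((measurable_Kf.pow_const 2).mul (m1.pow_const a)).aestronglyMeasurable
  · filter_upwards [good_ae_Om] with x hx
    obtain ⟨h1, -⟩ := hx.Kf_bound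
    obtain ⟨hl1, -⟩ := one_le_loglog h1
    rw [Real.norm_eq_abs, abs_of_nonneg
      (mul_nonneg (by positivity) (Real.rpow_nonneg (by linarith) a))]
    apply mul_le_mul_of_nonneg_left _ (by positivity)
    calc Real.log (Real.exp 1 + Kf x) ^ a ≤ Real.log (Real.exp 1 + Kf x) ^ (1 : ℝ) :=
          Real.rpow_le_rpow_of_exponent_le hl1 ha
      _ = _ := Real.rpow_one _

/-- the distortion function -/
def Kd (f : E → E) (x : E) : ℝ :=
  if 0 < (fderiv ℝ f x).det then ‖fderiv ℝ f x‖ ^ 3 / (fderiv ℝ f x).det else 1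

lemma dt_smul (c : ℝ) (A : E →L[ℝ] E) : dt (c • A) = c ^ 3 * dt A := by
  unfold dt
  have : (c • A).toLinearMap = c • A.toLinearMap := rfl
  rw [this, LinearMap.det_smul, finrank_euclideanSpace, Fintype.card_fin]

lemma Kd_of_smul {f : E → E} {x y : E} {c : ℝ} (hc : 0 < c)
    (h : fderiv ℝ f x = c • fderiv ℝ ff y) (hJ : 0 < dt (fderiv ℝ ff y)) :
    0 < (fderiv ℝ f x).det ∧ Kd f x = Kf y := by
  have e : (fderiv ℝ f x).det = c ^ 3 * dt (fderiv ℝ ff y) := by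
    rw [h]; exact dt_smul c _
  have hpos : 0 < (fderiv ℝ f x).det := by rw [e]; positivity
  refine ⟨hpos, ?_⟩
  have hJ' : 0 < Jf y := hJ
  unfold Kd Kf
  rw [if_pos hpos, if_pos hJ', e, h, norm_smul, Real.norm_eq_abs, abs_of_pos hc, mul_pow]
  show _ = ‖fderiv ℝ ff y‖ ^ 3 / dt (fderiv ℝ ff y)
  have : c ^ 3 ≠ 0 := by positivity
  field_simp

theorem main (Ω : Set E) (hΩ : IsOpen Ω) (hb : Bornology.IsBounded Ω) (p : E) (hp : p ∈ Ω) :
    ∃ f : E → E, LipschitzWith 1 f ∧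
      (∀ᵐ x ∂(volume.restrict Ω), DifferentiableAt ℝ f x ∧ 0 < (fderiv ℝ f x).det) ∧
      (∀ a : ℝ, a ≤ 1 → IntegrableOn
        (fun x => Kd f x ^ 2 * Real.log (Real.exp 1 + Kd f x) ^ a) Ω) ∧
      (∀ b : ℝ, b < 1 → IntegrableOn
        (fun x => Kd f x ^ 2 * Real.log (Real.exp 1 + Kd f x) *
          Real.log (Real.exp 1 + Real.log (Real.exp 1 + Kd f x)) ^ b) Ω) ∧
      Ω ∩ f ⁻¹' {0} = {x ∈ Ω | x 0 = p 0 ∧ x 1 = p 1} ∧
      ¬ IsDiscrete (Ω ∩ f ⁻¹' {0}) := by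
  obtain ⟨G, hG1, hG2⟩ := lipschitzOn_ff.extend_finite_dimension
  set K0 : ℝ≥0 := lipschitzExtensionConstant E * 51000000 with hK0
  obtain ⟨R, hR0, hR⟩ := hb.subset_ball_lt 0 p
  have he0 := Real.exp_pos (-t0)
  set ρ : ℝ := Real.exp (-t0) / (4 * R) with hρ
  have hρ0 : 0 < ρ := by positivity
  have hρR : ρ * R ≤ Real.exp (-t0) / 4 := by
    rw [hρ]; field_simp; exact le_rfl
  have hA : ∀ x ∈ Ω, Ac ρ p x ∈ Om := fun x hx => Ac_mem hρ0 hρR (hR hx)
  set κ : ℝ := 1 / (((K0 : ℝ) + 1) * ρ) with hκ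
  have hK0' : (0 : ℝ) ≤ K0 := K0.2
  have hκ0 : 0 < κ := by positivity
  set f : E → E := fun x => κ • G (Ac ρ p x) with hf
  have hc : 0 < κ * ρ := by positivity
  -- Lipschitz
  have hL : LipschitzWith 1 f := by
    refine LipschitzWith.of_dist_le_mul fun x y => ?_
    rw [NNReal.coe_one, one_mul, dist_eq_norm, hf]
    show ‖κ • G (Ac ρ p x) - κ • G (Ac ρ p y)‖ ≤ dist x y
    rw [← smul_sub, norm_smul, Real.norm_eq_abs, abs_of_pos hκ0, ← dist_eq_norm]
    have h1 := hG1.dist_le_mul (Ac ρ p x) (Ac ρ p y)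
    have h2 : dist (Ac ρ p x) (Ac ρ p y) = ρ * dist x y := by
      rw [dist_eq_norm, dist_eq_norm]
      have : Ac ρ p x - Ac ρ p y = ρ • (x - y) := by unfold Ac; module
      rw [this, norm_smul, Real.norm_eq_abs, abs_of_pos hρ0]
    rw [h2] at h1
    have hd := dist_nonneg (x := x) (y := y)
    calc κ * dist (G (Ac ρ p x)) (G (Ac ρ p y)) ≤ κ * (K0 * (ρ * dist x y)) :=
          mul_le_mul_of_nonneg_left h1 hκ0.le
      _ ≤ κ * (((K0 : ℝ) + 1) * (ρ * dist x y)) := by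
          apply mul_le_mul_of_nonneg_left _ hκ0.le
          exact mul_le_mul_of_nonneg_right (by linarith) (by positivity)
      _ = dist x y := by
          rw [hκ]; field_simp
  -- derivative
  have hder : ∀ x ∈ Ω, Good (Ac ρ p x) →
      HasFDerivAt f ((κ * ρ) • fderiv ℝ ff (Ac ρ p x)) x := by
    intro x hx hg
    have h1 : HasFDerivAt G (fderiv ℝ ff (Ac ρ p x)) (Ac ρ p x) := by
      refine hg.diff.hasFDerivAt.congr_of_eventuallyEq ?_
      filter_upwards [isOpen_Om.mem_nhds (hA x hx)] with y hy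
      exact (hG2 hy).symm
    have h2 : HasFDerivAt (Ac ρ p) (ρ • ContinuousLinearMap.id ℝ E) x := by
      have h3 := (((hasFDerivAt_id (𝕜 := ℝ) x).sub_const p).const_smul ρ).const_add (mk 0 0 (3 / 2))
      exact h3
    have h4 := (h1.comp x h2).const_smul κ
    have e : (κ * ρ) • fderiv ℝ ff (Ac ρ p x) =
        κ • ((fderiv ℝ ff (Ac ρ p x)).comp (ρ • ContinuousLinearMap.id ℝ E)) := by
      ext v
      simp [mul_smul]
    rw [e]
    exact h4
  have hgood : ∀ᵐ x ∂(volume.restrict Ω), x ∈ Ω ∧ Good (Ac ρ p x) := by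
    have h1 : ∀ᵐ y : E ∂volume, y ∈ Om → Good y :=
      (ae_restrict_iff' isOpen_Om.measurableSet).mp good_ae_Om
    filter_upwards [ae_restrict_of_ae (ae_Ac hρ0.ne' p h1), ae_restrict_mem hΩ.measurableSet]
      with x h2 h3
    exact ⟨h3, h2 (hA x h3)⟩
  have hKd : ∀ᵐ x ∂(volume.restrict Ω), x ∈ Ω ∧ DifferentiableAt ℝ f x ∧
      0 < (fderiv ℝ f x).det ∧ Kd f x = Kf (Ac ρ p x) := by
    filter_upwards [hgood] with x hx
    have h1 := hder x hx.1 hx.2
    have h2 := Kd_of_smul hc h1.fderiv hx.2.K_le.1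
    exact ⟨hx.1, h1.differentiableAt, h2.1, h2.2⟩
  have hzero : Ω ∩ f ⁻¹' {0} = {x ∈ Ω | x 0 = p 0 ∧ x 1 = p 1} := by
    ext x
    simp only [mem_inter_iff, mem_preimage, mem_singleton_iff, Set.mem_ofPred_eq]
    refine and_congr_right fun hx => ?_
    have h1 : f x = 0 ↔ ff (Ac ρ p x) = 0 := by
      rw [hf]
      show κ • G (Ac ρ p x) = 0 ↔ _
      rw [← hG2 (hA x hx), smul_eq_zero]
      exact ⟨fun h => h.resolve_left hκ0.ne', Or.inr⟩
    rw [h1, ff_eq_zero_iff (hA x hx), Ac_0, Ac_1, mul_eq_zero, mul_eq_zero, sub_eq_zero,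
      sub_eq_zero]
    constructor
    · rintro ⟨h2, h3⟩
      exact ⟨h2.resolve_left hρ0.ne', h3.resolve_left hρ0.ne'⟩
    · rintro ⟨h2, h3⟩
      exact ⟨Or.inr h2, Or.inr h3⟩
  refine ⟨f, hL, hKd.mono fun x hx => ⟨hx.2.1, hx.2.2.1⟩, ?_, ?_, hzero, ?_⟩
  · intro a ha
    refine Integrable.congr (integrable_Ac hρ0.ne' p (integrable_Kf_al ha)).integrableOn ?_
    filter_upwards [hKd] with x hx
    rw [indicator_of_mem (hA x hx.1), hx.2.2.2]
  · intro b hb1
    refine Integrable.congr (integrable_Ac hρ0.ne' p (integrable_Kf_c hb1)).integrableOn ?_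
    filter_upwards [hKd] with x hx
    rw [indicator_of_mem (hA x hx.1), hx.2.2.2]
  · rw [hzero]
    intro hd
    set S : Set E := {x ∈ Ω | x 0 = p 0 ∧ x 1 = p 1} with hS
    have hpS : p ∈ S := ⟨hp, rfl, rfl⟩
    have h1 := discreteTopology_subtype_iff.mp hd.to_subtype p hpS
    have hcont : Tendsto (fun s : ℝ => p + s • mk 0 0 1) (𝓝[≠] (0 : ℝ)) (𝓝 p) := by
      have c : Continuous (fun s : ℝ => p + s • mk 0 0 1) := by fun_prop
      have := c.tendsto 0
      rw [zero_smul, add_zero] at this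
      exact this.mono_left nhdsWithin_le_nhds
    have h2 : Tendsto (fun s : ℝ => p + s • mk 0 0 1) (𝓝[≠] (0 : ℝ)) (𝓝[≠] p ⊓ 𝓟 S) := by
      refine tendsto_inf.mpr ⟨tendsto_nhdsWithin_iff.mpr ⟨hcont, ?_⟩, tendsto_principal.mpr ?_⟩
      · filter_upwards [self_mem_nhdsWithin] with s hs h
        apply hs
        have := congrArg (fun q : E => q 2) h
        simpa using this
      · filter_upwards [hcont (hΩ.mem_nhds hp)] with s hs
        exact ⟨hs, by simp, by simp⟩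
    rw [h1] at h2
    have h3 : (𝓝[≠] (0 : ℝ)) = ⊥ := map_eq_bot_iff.mp (le_bot_iff.mp h2)
    exact (NeBot.ne inferInstance) h3

end Pool.Agent.Helper67.OWN
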